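import Pool.Agent.TH697.Form.Defs

set_option autoImplicit false

/-! # The products `u_iᵀ M v_i` over the field with two elements -/

namespace Pool.Agent.TH457.Omv

open Finset Pool.Agent.TH697.Form

/-- The items of the input: the `n × n` matrix over the field with two elements is item `none`,
and the `i`-th pair of vectors is item `some i`. -/
abbrev Item (n m : ℕ) : Option (Fin m) → Type
  | none => Matrix (Fin n) (Fin n) (ZMod 2)
  | some _ => (Fin n → ZMod 2) × (Fin n → ZMod 2)

/-- The product `u_iᵀ M v_i`. -/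
def product (n m : ℕ) (x : ∀ i, Item n m i) (i : Fin m) : ZMod 2 :=
  (x (some i)).1 ⬝ᵥ ((x none).mulVec (x (some i)).2)

/-- The question `g (u_1ᵀ M v_1, ..., u_mᵀ M v_m)`. -/
def question (n m : ℕ) (g : (Fin m → ZMod 2) → Bool) (x : ∀ i, Item n m i) : Bool :=
  g (product n m x)

/-- `g` depends on all its arguments. -/
def DependsOnAll {m : ℕ} (g : (Fin m → ZMod 2) → Bool) : Prop :=
  ∀ i : Fin m, ∃ (z : Fin m → ZMod 2) (a : ZMod 2), g (Function.update z i a) ≠ g z

end Pool.Agent.TH457.Omv
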