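import Pool.Agent.TH697.Form.Build
import Pool.Agent.TH457.OmvDefs

set_option autoImplicit false

/-! # Formulas for the products `u_iᵀ M v_i` over the field with two elements -/

namespace Pool.Agent.TH457.Omv

open Finset Pool.Agent.TH697.Form

variable {n m : ℕ}

section lower

variable [NeZero n]

/-- the positions used for the data -/
abbrev Pos (n : ℕ) [NeZero n] : Type := {t : Fin n × Fin n // t ≠ (0, 0)}

theorem card_pos' : Fintype.card (Pos n) = n ^ 2 - 1 := by
  rw [Fintype.card_subtype_compl, Fintype.card_prod, Fintype.card_fin, Fintype.card_subtype_eq]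
  congr 1
  ring

open Classical in
/-- the matrix with the data `w` -/
noncomputable def mat (a b : ZMod 2) (w : Pos n → Bool) : Matrix (Fin n) (Fin n) (ZMod 2) :=
  fun j k => if h : (j, k) ≠ ((0, 0) : Fin n × Fin n) then (if w ⟨(j, k), h⟩ then a else b) else 1

open Classical in
/-- the other items -/
noncomputable def enc (a b : ZMod 2) (z : Fin m → ZMod 2) (w : Pos n → Bool) :
    ∀ i, Item n m i
  | none => mat a b w
  | some j => if z j = 1 then (Pi.single 0 1, Pi.single 0 1) else (0, 0)

/-- the query -/
def ask (t : Pos n) : (Fin n → ZMod 2) × (Fin n → ZMod 2) :=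
  (Pi.single t.1.1 1, Pi.single t.1.2 1)

omit [NeZero n] in
theorem single_prod (M : Matrix (Fin n) (Fin n) (ZMod 2)) (j k : Fin n) :
    (Pi.single j (1 : ZMod 2) : Fin n → ZMod 2) ⬝ᵥ (M.mulVec (Pi.single k 1)) = M j k := by
  rw [single_one_dotProduct, Matrix.mulVec_single_one, Matrix.col_apply]

theorem product_enc (a b : ZMod 2) (z : Fin m → ZMod 2) (w : Pos n → Bool) (i : Fin m)
    (t : Pos n) :
    product n m (Function.update (enc a b z w) (some i) (ask t)) =
      Function.update z i (if w t then a else b) := by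
  classical
  have h0 : Function.update (enc a b z w : ∀ i, Item n m i) (some i) (ask t) none =
      mat a b w := by
    rw [Function.update_of_ne (by simp)]
    rfl
  funext j
  unfold product
  rw [h0]
  by_cases hj : j = i
  · subst hj
    rw [Function.update_self, Function.update_self]
    have e : (ask t).1 ⬝ᵥ ((mat a b w).mulVec (ask t).2) = mat a b w t.1.1 t.1.2 :=
      single_prod _ _ _
    rw [e]
    have h : (t.1.1, t.1.2) ≠ ((0, 0) : Fin n × Fin n) := t.2
    simp only [mat]
    rw [dif_pos h]
  · rw [Function.update_of_ne hj, Function.update_of_ne (by simpa using hj)]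
    have e : (enc a b z w : ∀ i, Item n m i) (some j) =
      if z j = 1 then (Pi.single 0 1, Pi.single 0 1) else (0, 0) := rfl
    rw [e]
    by_cases h1 : z j = 1
    · rw [if_pos h1, h1]
      have e2 : (Pi.single (0 : Fin n) (1 : ZMod 2) : Fin n → ZMod 2) ⬝ᵥ
          ((mat a b w).mulVec (Pi.single 0 1)) = mat a b w 0 0 := single_prod _ _ _
      refine e2.trans ?_
      simp [mat]
    · rw [if_neg h1]
      have e3 : z j = 0 := by
        have : ∀ c : ZMod 2, c ≠ 1 → c = 0 := by decide
        exact this _ h1
      rw [e3]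
      simp

end lower

theorem lower (hn : 6 ≤ n) (g : (Fin m → ZMod 2) → Bool) (hg : DependsOnAll g)
    {Ω : Type} [Fintype Ω] (μ : Ω → ℝ) (hμ : IsProb μ)
    (F : Ω → Fml (Option (Fin m)) (Item n m))
    (hF : Computes μ F (fun _ => True) (question n m g)) :
    (m : ℝ) * n ^ 2 ≤ 100 * expSize μ F := by
  classical
  have : NeZero n := ⟨by omega⟩
  have h1 : ∀ i : Fin m, (49 / 600 : ℝ) * ((n : ℝ) ^ 2 - 1) ≤
      4 * (∑ ω, μ ω * ((F ω).reads (some i) : ℝ)) + 1 := by
    intro i
    obtain ⟨z, a, hza⟩ := hg i
    -- the two values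
    obtain ⟨c, d, hc, hd⟩ : ∃ c d : ZMod 2, g (Function.update z i c) = true ∧
        g (Function.update z i d) = false := by
      rcases hh : g z with _ | _
      · refine ⟨a, z i, ?_, ?_⟩
        · rw [hh] at hza
          simpa using hza
        · rw [Function.update_eq_self]
          exact hh
      · refine ⟨z i, a, ?_, ?_⟩
        · rw [Function.update_eq_self]
          exact hh
        · rw [hh] at hza
          simpa using hza
    have h := reads_lower μ hμ F (fun _ => True) (question n m g) hF (some i) (fun _ => 0)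
      (fun (t : Pos n) _ => ask t) (fun _ _ _ _ => rfl) (enc c d z) (fun _ _ => trivial)
      (fun t w => by
        unfold question
        rw [product_enc]
        rcases w t with _ | _
        · simpa using hd
        · simpa using hc)
    have e : ((Fintype.card (Pos n) : ℕ) : ℝ) = (n : ℝ) ^ 2 - 1 := by
      rw [card_pos', Nat.cast_sub (Nat.one_le_pow _ _ (by omega))]
      push_cast
      ring
    rw [e] at h
    exact h
  have h2 := size_lower μ hμ F ((univ : Finset (Fin m)).map Function.Embedding.some)
    ((49 / 600 : ℝ) * ((n : ℝ) ^ 2 - 1)) (by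
      intro i hi
      rw [mem_map] at hi
      obtain ⟨i', -, rfl⟩ := hi
      exact h1 i')
  rw [card_map, card_univ, Fintype.card_fin] at h2
  have h3 : (6 : ℝ) ≤ n := by exact_mod_cast hn
  have h4 : (0 : ℝ) ≤ m := Nat.cast_nonneg m
  have h5 : (n : ℝ) ^ 2 / 25 ≤ (49 / 600 : ℝ) * ((n : ℝ) ^ 2 - 1) - 1 := by nlinarith
  have h6 := mul_le_mul_of_nonneg_left h5 h4
  linarith

section upper

variable {ι : Type} {D : ι → Type} {α : Type}

/-- sums modulo two -/
theorem exists_xor (s : Finset α) (hs : s.Nonempty) (F : α → Fml ι D) :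
    ∃ G : Fml ι D, (∀ x, (if G.eval x then (1 : ZMod 2) else 0) =
      ∑ a ∈ s, if (F a).eval x then (1 : ZMod 2) else 0) ∧
      G.size = ∑ a ∈ s, (F a).size := by
  classical
  induction hs using Finset.Nonempty.cons_induction with
  | singleton a => exact ⟨F a, fun x => by rw [sum_singleton], by rw [sum_singleton]⟩
  | cons a s ha hs ih =>
    obtain ⟨G, h1, h2⟩ := ih
    refine ⟨.gate (fun u v => xor u v) (F a) G, fun x => ?_, ?_⟩
    · rw [sum_cons, ← h1 x]
      simp only [Fml.eval]
      have : ∀ u v : Bool, (if xor u v then (1 : ZMod 2) else 0) =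
          (if u then 1 else 0) + (if v then 1 else 0) := by decide
      exact this _ _
    · simp only [Fml.size, h2, sum_cons]

/-- a function of the value of a formula -/
theorem exists_comp (p : Bool → Bool) (F : Fml ι D) :
    ∃ G : Fml ι D, (∀ x, G.eval x = p (F.eval x)) ∧ G.size = F.size := by
  cases F with
  | leaf i q => exact ⟨.leaf i (fun d => p (q d)), fun _ => rfl, rfl⟩
  | gate h a b => exact ⟨.gate (fun u v => p (h u v)) a b, fun _ => rfl, rfl⟩

end upper

theorem upper_one (hn : 1 ≤ n) (i : Fin m) (p : ZMod 2 → Bool) :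
    ∃ F : Fml (Option (Fin m)) (Item n m), (∀ x, F.eval x = p (product n m x i)) ∧
      F.size = 3 * n ^ 2 := by
  classical
  have : NeZero n := ⟨by omega⟩
  obtain ⟨G, h1, h2⟩ := exists_xor (ι := Option (Fin m)) (D := Item n m)
    (univ : Finset (Fin n × Fin n)) ⟨(0, 0), mem_univ _⟩
    (fun q => .gate (fun a b => a && b) (.leaf (some i) (fun d => decide (d.1 q.1 = 1)))
      (.gate (fun a b => a && b) (.leaf none (fun d => decide (d q.1 q.2 = 1)))
        (.leaf (some i) (fun d => decide (d.2 q.2 = 1)))))
  obtain ⟨G', h3, h4⟩ := exists_comp (fun b => p (if b then 1 else 0)) G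
  refine ⟨G', fun x => ?_, ?_⟩
  · rw [h3, h1 x]
    congr 1
    unfold product dotProduct Matrix.mulVec dotProduct
    rw [Fintype.sum_prod_type]
    refine sum_congr rfl fun j _ => ?_
    rw [mul_sum]
    refine sum_congr rfl fun k _ => ?_
    simp only [Fml.eval]
    have : ∀ a b c : ZMod 2, (if (decide (a = 1) && (decide (b = 1) && decide (c = 1))) = true
        then (1 : ZMod 2) else 0) = a * (b * c) := by decide
    exact this _ _ _
  · rw [h4, h2]
    simp only [Fml.size, sum_const, card_univ, Fintype.card_prod, Fintype.card_fin, smul_eq_mul]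
    ring

theorem upper (hn : 1 ≤ n) (G : Fml (Fin m) (fun _ => ZMod 2)) :
    ∃ F : Fml (Option (Fin m)) (Item n m), (∀ x, F.eval x = question n m G.eval x) ∧
      F.size = 3 * n ^ 2 * G.size := by
  induction G with
  | leaf i p =>
    obtain ⟨F, h1, h2⟩ := upper_one hn i p
    exact ⟨F, fun x => by rw [h1]; rfl, by rw [h2]; simp [Fml.size]⟩
  | gate h a b iha ihb =>
    obtain ⟨A, h1, h2⟩ := iha
    obtain ⟨B, h3, h4⟩ := ihb
    refine ⟨.gate h A B, fun x => ?_, ?_⟩
    · simp only [Fml.eval, h1, h3, question]
    · simp only [Fml.size, h2, h4]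
      ring

end Pool.Agent.TH457.Omv
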